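import Pool.Agent.H373R2.T7.Tuple
import Pool.Agent.H373R2.T7.SupE2

/-!
UL project (helper23): a Hardy-Littlewood law for almost all shifts in EVERY set of integers.

Every `St_X` below is the statement of one task; the doc comment is its complete proof.  The file of a
task is `Pool/Agent/W<yourseat>/UL/<Name>.lean`, the theorem has the name given in the comment.
Definitions used from `Pool.Agent.H373R2.T7`: `pz z` (the primes `≤ z`), `Vz z = ∏_{p ≤ z} (1 - 1/p)`,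
`lamz z n = (Vz z)⁻¹` if no prime `≤ z` divides `n`, else `0`; `ee` (`H807R2.Dav`): `e(x)`.
-/

namespace Pool.Agent.W23.UL

open Finset Polynomial
open Pool.Agent.H373R2.T7
open Pool.Agent.H807R2.Dav

/-- the part of `n` composed of primes `> z` -/
def rgh (z n : ℕ) : ℕ := (n.primeFactorsList.filter (fun p => z < p)).prod

/-- the part of `n` composed of primes `≤ z` -/
def smo (z n : ℕ) : ℕ := (n.primeFactorsList.filter (fun p => p ≤ z)).prod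

/-- `Λ` of the rough part, on the integers -/
noncomputable def qI (z : ℕ) (k : ℤ) : ℝ :=
  if 1 ≤ k then ArithmeticFunction.vonMangoldt (rgh z k.toNat) else 0

/-- its model -/
noncomputable def rI (z : ℕ) (k : ℤ) : ℝ := if 1 ≤ k then (Vz z)⁻¹ else 0

/-- **SMB** (theorem `SMB : St_SMB`).  Few integers have a large smooth part.

Proof.  `α = 1/log z` (`z ≥ 2`; for `z = 1` the smooth part is `1`).  The completely multiplicative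
function `F(v) = (smo z v)^α` is `∑_{d | v} h(d)` with `h ≥ 0` multiplicative, supported on
`z`-smooth numbers, `h(p^j) = p^(jα) - p^((j-1)α)`, so
`∑_{v ≤ N} F(v) ≤ N ∑_d h(d)/d = N ∏_{p ≤ z} (1 + ∑_j h(p^j)/p^j)`, and `p^α - 1 ≤ (e - 1) log p/log z`,
so each factor is at most `1 + C log p/(p log z)` (`p ≥ 3`: `∑_j (p^α/p)^j` converges as `p^α ≤ e < 3`;
for `p = 2`, `z ≥ 20`: `2^α ≤ 1.3`), and by Mertens/Chebyshev the product is `≤ C`.  (For small `z`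
enlarge `z`: `smo z v` increases with `z`.)  So the number is `≤ C N · N^(-τ α) =
C N exp(-τ log N/log z) ≤ N/(log N)^U` for `N ≥ N₀`, as `log z ≤ E log log N`.
(Alternatively: such a `v` has a divisor `d ∈ (N^τ/z, N^τ]` which is `z`-smooth; and the number
`Ψ(y, z)` of `z`-smooth `d ≤ y` is `≤ y exp(-c log y/log z)`: look for a landed lemma.) -/
def St_SMB : Prop := ∀ (E U : ℕ) (τ : ℝ), 0 < τ → ∃ N0 : ℕ, ∀ N : ℕ, N0 ≤ N → ∀ z : ℕ, 1 ≤ z →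
    (z : ℝ) ≤ Real.log N ^ E →
    (((Icc 1 N).filter (fun v : ℕ => (N : ℝ) ^ τ < smo z v)).card : ℝ) ≤ N / Real.log N ^ U

/-- **SUPR** (theorem `SUPR (hSMB : St_SMB) : St_SUPR`).  The exponential sum of `Λ(rough part)` minus
its model.

Proof.  `v = m s` uniquely, `m = smo z v`, `s = rgh z v`.  Split the sum.
(1) `m ≤ √N`: `∑_{m ≤ √N, z-smooth} ∑_{s ≤ N/m, s rough} (Λ(s) - V⁻¹) e(m s α)`.  For each `m` the inner
sum is `∑_{s ≤ N/m} (Λ(s) - lamz z s) e(s (mα)) - ∑_{s ≤ N/m, s not rough} Λ(s) e(..)`; the first is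
`≤ (N/m)/log(N/m)^(U+2)` by `sup_diff (U+2)` of `T7/SupE2.lean` applied to `⌊N/m⌋ ≥ √N/2` (the range of
`z`: `log(N/m) ≤ log N` gives the lower bound, and `z ≤ (log N)^E ≤ log(⌊N/m⌋)^(E+1)` for large `N`);
the second is `≤ ∑_{p ≤ z} (log N/log p + 1) log p ≤ 2 z log N` (prime powers).  The sum over `m` is
`≤ 4^(U+2) N (1 + log N)/(log N)^(U+2) + 2 √N z log N`.
(2) `m > √N`: at most `N/(log N)^(U+3)` integers `v` (SMB with `τ = 1/2`), each term is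
`≤ log N + V⁻¹ ≤ 2 log N` (`Vz_inv_small`).
(`rgh z v = 1` for smooth `v`: `Λ(1) = 0`; `s = 1` is rough.) -/
def St_SUPR : Prop := ∀ U : ℕ, ∃ B : ℕ, ∀ E : ℕ, ∃ N0 : ℕ, ∀ N : ℕ, N0 ≤ N → ∀ z : ℕ,
    Real.log N ^ B ≤ z → (z : ℝ) ≤ Real.log N ^ E → ∀ α : ℝ,
    ‖∑ n ∈ Icc 1 N, ((ArithmeticFunction.vonMangoldt (rgh z n) - (Vz z)⁻¹ : ℝ) : ℂ) *
      ee ((n : ℝ) * α)‖ ≤ N / Real.log N ^ U

/-- **BILR** (theorem `BILR (hSUPR : St_SUPR) : St_BILR`; copy and adapt `bil_lam` of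
`H373R2/T7/BilLam.lean`, with `qI`, `rI` in place of `lamI`, `lamzI` and SUPR in place of `sup_diff`;
`0 ≤ Λ(rgh z n) ≤ log n`). -/
def St_BILR : Prop := ∀ f : ℤ[X], 1 ≤ f.natDegree → 0 < f.leadingCoeff → ∀ B : ℕ, 1 ≤ B → ∀ U : ℕ,
    ∃ B0 : ℕ, ∀ E : ℕ, ∃ N0 : ℕ, ∀ N : ℕ, N0 ≤ N → ∀ x : ℕ, N ≤ B * x ^ f.natDegree →
    x ^ f.natDegree ≤ B * N →
    ∀ A : ℕ, A ≤ B * N → ∀ z : ℕ, Real.log N ^ B0 ≤ z → (z : ℝ) ≤ Real.log N ^ E →
    ∀ σ : ℤ, (σ = 1 ∨ σ = -1) → ∀ G c : ℕ → ℂ, (∀ a, ‖G a‖ ≤ 1) → (∀ m, ‖c m‖ ≤ 1) →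
    ‖∑ a ∈ Icc 1 A, ∑ m ∈ Icc 1 x, G a * c m *
      ((qI z (a + σ * f.eval (m : ℤ)) - rI z (a + σ * f.eval (m : ℤ)) : ℝ) : ℂ)‖ ≤
      N * x / Real.log N ^ U

/-- **TUPR** (theorem `TUPR (hBILR : St_BILR) : St_TUPR`; copy and adapt `tuple_diff` of
`H373R2/T7/Tuple.lean`: `tele` with `P = qI`, `Q = rI`, and weights `g` in place of `Λ`). -/
def St_TUPR : Prop := ∀ (k : ℕ) (f : Fin k → ℤ[X]), (∀ i, 1 ≤ (f i).natDegree) →
    (∀ i, 0 < (f i).leadingCoeff) → ∀ B : ℕ, 1 ≤ B → ∀ U : ℕ,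
    ∃ B0 : ℕ, ∀ E : ℕ, ∃ N0 : ℕ, ∀ N : ℕ, N0 ≤ N → ∀ x : Fin k → ℕ,
      (∀ i, N ≤ B * x i ^ (f i).natDegree ∧ x i ^ (f i).natDegree ≤ B * N) →
      ∀ z : ℕ, Real.log N ^ B0 ≤ z → (z : ℝ) ≤ Real.log N ^ E →
      ∀ g : ℕ → ℝ, (∀ n, |g n| ≤ 1) →
      ∑ m ∈ Fintype.piFinset (fun i => Icc 1 (x i)), |∑ n ∈ Icc 1 N, g n *
        (∏ i, qI z ((n : ℤ) + (f i).eval (m i : ℤ)) - ∏ i, rI z ((n : ℤ) + (f i).eval (m i : ℤ)))| ≤
        N * (∏ i, (x i : ℝ)) / Real.log N ^ U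

end Pool.Agent.W23.UL
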