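import Pool.Agent.W23.UL.Fin3
import Pool.Agent.W790.UL.SMB
import Pool.Agent.W131.UL.SUPR
import Pool.Agent.W366.UL.BILR
import Pool.Agent.W108.UL.TUPR

/-! UL project: assembly. -/

namespace Pool.Agent.W23.UL

open Finset Polynomial
open Pool.Agent.H373R2.T7

theorem tupr : St_TUPR :=
  Pool.Agent.W108.UL.TUPR (Pool.Agent.W366.UL.BILR (Pool.Agent.W131.UL.SUPR Pool.Agent.W790.UL.SMB))

theorem law_thm (k : ℕ) (f : Fin k → ℤ[X]) (hf : ∀ i, 1 ≤ (f i).natDegree)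
    (hl : ∀ i, 0 < (f i).leadingCoeff) (B : ℕ) (hB : 1 ≤ B) (U : ℕ) :
    ∃ B0 : ℕ, ∀ E : ℕ, ∃ N0 : ℕ, ∀ N : ℕ, N0 ≤ N → ∀ x : Fin k → ℕ,
      (∀ i, N ≤ B * x i ^ (f i).natDegree ∧ x i ^ (f i).natDegree ≤ B * N) →
      ∀ z : ℕ, Real.log N ^ B0 ≤ z → (z : ℝ) ≤ Real.log N ^ E →
      ∀ g : ℕ → ℝ, (∀ n, |g n| ≤ 1) →
      ∃ H : Finset (Fin k → ℕ), (H.card : ℝ) ≤ (∏ i, (x i : ℝ)) / Real.log N ^ U ∧
        ∀ m ∈ Fintype.piFinset (fun i => Icc 1 (x i)), m ∉ H →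
          |∑ n ∈ Icc 1 N, g n * ∏ i, qI z ((n : ℤ) + (f i).eval (m i : ℤ)) -
            (Vz z)⁻¹ ^ k * ∑ n ∈ Icc 1 N, g n| ≤ N / Real.log N ^ U :=
  law tupr k f hf hl B hB U

open Classical in
theorem count_thm (k : ℕ) (f : Fin k → ℤ[X]) (hf : ∀ i, 1 ≤ (f i).natDegree)
    (hl : ∀ i, 0 < (f i).leadingCoeff) (B : ℕ) (hB : 1 ≤ B) (C U : ℕ) (ε : ℝ) (hε : 0 < ε) :
    ∃ B0 : ℕ, ∀ E : ℕ, ∃ N0 : ℕ, ∀ N : ℕ, N0 ≤ N → ∀ x : Fin k → ℕ,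
      (∀ i, N ≤ B * x i ^ (f i).natDegree ∧ x i ^ (f i).natDegree ≤ B * N) →
      ∀ z : ℕ, Real.log N ^ B0 ≤ z → (z : ℝ) ≤ Real.log N ^ E →
      ∀ A : Finset ℕ, A ⊆ Icc 1 N → N / Real.log N ^ C ≤ (A.card : ℝ) →
      ∃ H : Finset (Fin k → ℕ), (H.card : ℝ) ≤ (∏ i, (x i : ℝ)) / Real.log N ^ U ∧
        ∀ m ∈ Fintype.piFinset (fun i => Icc 1 (x i)), m ∉ H →
          |((A.filter (fun n : ℕ => ∀ i, prm z ((n : ℤ) + (f i).eval (m i : ℤ)))).card : ℝ) -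
            A.card / (Vz z * Real.log N) ^ k| ≤ ε * (A.card / (Vz z * Real.log N) ^ k) :=
  count tupr Pool.Agent.W790.UL.SMB k f hf hl B hB C U ε hε

end Pool.Agent.W23.UL
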