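import Pool.Agent.W23.UL.Defs

/-! UL project: the exceptional set (Markov's inequality). -/

namespace Pool.Agent.W23.UL

open Finset Polynomial
open Pool.Agent.H373R2.T7

lemma rI_prod {k : ℕ} (z : ℕ) (s : Fin k → ℤ) (h : ∀ i, 1 ≤ s i) : ∏ i, rI z (s i) = (Vz z)⁻¹ ^ k := by
  have h1 : ∀ i, rI z (s i) = (Vz z)⁻¹ := fun i => by unfold rI; rw [if_pos (h i)]
  simp only [h1]
  rw [prod_const, card_univ, Fintype.card_fin]

lemma rI_nonneg (z : ℕ) (k : ℤ) : 0 ≤ rI z k := by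
  unfold rI
  split_ifs
  · exact (inv_pos.2 (Vz_pos z)).le
  · exact le_rfl

lemma rI_le (z : ℕ) (k : ℤ) : rI z k ≤ (Vz z)⁻¹ := by
  unfold rI
  split_ifs
  · exact le_rfl
  · exact (inv_pos.2 (Vz_pos z)).le

lemma model {k : ℕ} (f : Fin k → ℤ[X]) (C : Fin k → ℕ) (hC : ∀ i, ∀ m : ℕ, -(C i : ℤ) ≤ (f i).eval (m : ℤ))
    (N z : ℕ) (g : ℕ → ℝ) (hg : ∀ n, |g n| ≤ 1) (m : Fin k → ℕ) :
    |∑ n ∈ Icc 1 N, g n * ∏ i, rI z ((n : ℤ) + (f i).eval (m i : ℤ)) - (Vz z)⁻¹ ^ k * ∑ n ∈ Icc 1 N, g n| ≤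
      ((∑ i, C i : ℕ) : ℝ) * (Vz z)⁻¹ ^ k := by
  have hV := (inv_pos.2 (Vz_pos z)).le
  rw [mul_sum, ← sum_sub_distrib]
  set S : Finset ℕ := univ.biUnion (fun i => Icc 1 (C i)) with hS
  have hScard : (S.card : ℝ) ≤ ((∑ i, C i : ℕ) : ℝ) := by
    have h1 := card_biUnion_le (s := (univ : Finset (Fin k))) (t := fun i => Icc 1 (C i))
    simp only [Nat.card_Icc, Nat.add_sub_cancel] at h1
    exact_mod_cast h1
  have hterm : ∀ n ∈ Icc 1 N, |g n * ∏ i, rI z ((n : ℤ) + (f i).eval (m i : ℤ)) - (Vz z)⁻¹ ^ k * g n| ≤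
      if n ∈ S then (Vz z)⁻¹ ^ k else 0 := by
    intro n hn
    rw [mem_Icc] at hn
    by_cases h : ∀ i, 1 ≤ (n : ℤ) + (f i).eval (m i : ℤ)
    · rw [rI_prod z _ h]
      have : g n * (Vz z)⁻¹ ^ k - (Vz z)⁻¹ ^ k * g n = 0 := by ring
      rw [this, abs_zero]
      split_ifs
      · positivity
      · exact le_rfl
    · push Not at h
      obtain ⟨i, hi⟩ := h
      have hz : ∏ i, rI z ((n : ℤ) + (f i).eval (m i : ℤ)) = 0 := by
        apply prod_eq_zero (mem_univ i)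
        unfold rI
        rw [if_neg (by omega)]
      have hnS : n ∈ S := by
        rw [hS, mem_biUnion]
        refine ⟨i, mem_univ i, ?_⟩
        rw [mem_Icc]
        have := hC i (m i)
        omega
      rw [hz, if_pos hnS, mul_zero, zero_sub, abs_neg, abs_mul, abs_of_nonneg (pow_nonneg hV k)]
      calc (Vz z)⁻¹ ^ k * |g n| ≤ (Vz z)⁻¹ ^ k * 1 := mul_le_mul_of_nonneg_left (hg n) (pow_nonneg hV k)
        _ = _ := mul_one _
  refine (abs_sum_le_sum_abs _ _).trans ((sum_le_sum hterm).trans ?_)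
  rw [← sum_filter, sum_const, nsmul_eq_mul]
  apply mul_le_mul_of_nonneg_right _ (pow_nonneg hV k)
  refine le_trans ?_ hScard
  exact_mod_cast card_le_card (fun n hn => (mem_filter.1 hn).2)

theorem law (hT : St_TUPR) (k : ℕ) (f : Fin k → ℤ[X]) (hf : ∀ i, 1 ≤ (f i).natDegree)
    (hl : ∀ i, 0 < (f i).leadingCoeff) (B : ℕ) (hB : 1 ≤ B) (U : ℕ) :
    ∃ B0 : ℕ, ∀ E : ℕ, ∃ N0 : ℕ, ∀ N : ℕ, N0 ≤ N → ∀ x : Fin k → ℕ,
      (∀ i, N ≤ B * x i ^ (f i).natDegree ∧ x i ^ (f i).natDegree ≤ B * N) →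
      ∀ z : ℕ, Real.log N ^ B0 ≤ z → (z : ℝ) ≤ Real.log N ^ E →
      ∀ g : ℕ → ℝ, (∀ n, |g n| ≤ 1) →
      ∃ H : Finset (Fin k → ℕ), (H.card : ℝ) ≤ (∏ i, (x i : ℝ)) / Real.log N ^ U ∧
        ∀ m ∈ Fintype.piFinset (fun i => Icc 1 (x i)), m ∉ H →
          |∑ n ∈ Icc 1 N, g n * ∏ i, qI z ((n : ℤ) + (f i).eval (m i : ℤ)) -
            (Vz z)⁻¹ ^ k * ∑ n ∈ Icc 1 N, g n| ≤ N / Real.log N ^ U := by
  classical
  obtain ⟨B0, hB0⟩ := hT k f hf hl B hB (2 * U + 1)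
  have hlb := fun i => lower_bdd (f i) (hf i) (hl i)
  choose C hC using hlb
  refine ⟨B0, fun E => ?_⟩
  obtain ⟨N0, h0⟩ := hB0 E
  obtain ⟨N1, h1⟩ := Vz_inv_small E
  obtain ⟨N2, h2⟩ := ev_L' 2
  obtain ⟨N3, h3⟩ := ev_log' (k + U) (2 * ((∑ i, C i : ℕ) : ℝ))
  refine ⟨max (max N0 N1) (max N2 (max N3 3)), fun N hN x hx z hz1 hz2 g hg => ?_⟩
  have a0 : N0 ≤ N := by omega
  have a1 : N1 ≤ N := by omega
  have a2 : N2 ≤ N := by omega
  have a3 : N3 ≤ N := by omega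
  have a4 : 3 ≤ N := by omega
  have hNr : (3 : ℝ) ≤ N := by exact_mod_cast a4
  have hL2 := h2 N a2
  set L := Real.log N with hLd
  have hL0 : 0 < L := by linarith
  have hL1 : 1 ≤ L := by linarith
  have hz : 1 ≤ z := by
    have : (1 : ℝ) ≤ z := (one_le_pow₀ hL1).trans hz1
    exact_mod_cast this
  have hV := h1 N a1 z hz hz2
  have hVp := inv_pos.2 (Vz_pos z)
  rw [← hLd] at hV
  have hsum := h0 N a0 x hx z hz1 hz2 g hg
  rw [← hLd] at hsum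
  set Φ : (Fin k → ℕ) → ℝ := fun m => |∑ n ∈ Icc 1 N, g n *
        (∏ i, qI z ((n : ℤ) + (f i).eval (m i : ℤ)) - ∏ i, rI z ((n : ℤ) + (f i).eval (m i : ℤ)))| with hΦ
  set H := (Fintype.piFinset (fun i => Icc 1 (x i))).filter (fun m => (N : ℝ) / (2 * L ^ U) < Φ m) with hH
  have hprod : 0 ≤ ∏ i, (x i : ℝ) := prod_nonneg fun _ _ => Nat.cast_nonneg _
  refine ⟨H, ?_, ?_⟩
  · have e1 : (H.card : ℝ) * ((N : ℝ) / (2 * L ^ U)) ≤ ∑ m ∈ H, Φ m := by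
      rw [← nsmul_eq_mul]
      apply card_nsmul_le_sum
      intro m hm
      exact (mem_filter.1 hm).2.le
    have e2 : ∑ m ∈ H, Φ m ≤ ∑ m ∈ Fintype.piFinset (fun i => Icc 1 (x i)), Φ m :=
      sum_le_sum_of_subset_of_nonneg (filter_subset _ _) (fun _ _ _ => abs_nonneg _)
    have e3 := e1.trans (e2.trans hsum)
    have e4 : (H.card : ℝ) ≤ (2 / L) * ((∏ i, (x i : ℝ)) / L ^ U) := by
      have hpos : (0 : ℝ) < (N : ℝ) / (2 * L ^ U) := by positivity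
      rw [← le_div_iff₀ hpos] at e3
      refine e3.trans (le_of_eq ?_)
      have hN0 : (N : ℝ) ≠ 0 := by positivity
      rw [show 2 * U + 1 = U + U + 1 by ring, pow_succ, pow_add]
      field_simp
    refine e4.trans ?_
    calc (2 / L) * ((∏ i, (x i : ℝ)) / L ^ U) ≤ 1 * ((∏ i, (x i : ℝ)) / L ^ U) := by
          apply mul_le_mul_of_nonneg_right _ (by positivity)
          rw [div_le_one hL0]; exact hL2
      _ = _ := one_mul _
  · intro m hm hmH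
    have f1 : Φ m ≤ (N : ℝ) / (2 * L ^ U) := by
      by_contra h
      exact hmH (mem_filter.2 ⟨hm, not_le.1 h⟩)
    have f2 := model f C hC N z g hg m
    have f3 : ((∑ i, C i : ℕ) : ℝ) * (Vz z)⁻¹ ^ k ≤ (N : ℝ) / (2 * L ^ U) := by
      have g1 : (Vz z)⁻¹ ^ k ≤ L ^ k := pow_le_pow_left₀ hVp.le hV k
      have g2 := h3 N a3
      rw [← hLd] at g2
      have g3 : √(N : ℝ) ≤ N := by
        rw [Real.sqrt_le_iff]
        constructor
        · positivity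
        · nlinarith
      rw [le_div_iff₀ (by positivity)]
      calc ((∑ i, C i : ℕ) : ℝ) * (Vz z)⁻¹ ^ k * (2 * L ^ U) ≤ ((∑ i, C i : ℕ) : ℝ) * L ^ k * (2 * L ^ U) := by
            gcongr
        _ = 2 * ((∑ i, C i : ℕ) : ℝ) * L ^ (k + U) := by rw [pow_add]; ring
        _ ≤ N := g2.trans g3
    have f4 : ∑ n ∈ Icc 1 N, g n * ∏ i, qI z ((n : ℤ) + (f i).eval (m i : ℤ)) -
        (Vz z)⁻¹ ^ k * ∑ n ∈ Icc 1 N, g n = (∑ n ∈ Icc 1 N, g n *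
        (∏ i, qI z ((n : ℤ) + (f i).eval (m i : ℤ)) - ∏ i, rI z ((n : ℤ) + (f i).eval (m i : ℤ)))) +
        (∑ n ∈ Icc 1 N, g n * ∏ i, rI z ((n : ℤ) + (f i).eval (m i : ℤ)) - (Vz z)⁻¹ ^ k * ∑ n ∈ Icc 1 N, g n) := by
      rw [add_sub_assoc', ← sum_add_distrib]
      congr 1
      apply sum_congr rfl
      intro n _
      ring
    rw [f4]
    refine (abs_add_le _ _).trans ?_
    have f5 : (N : ℝ) / (2 * L ^ U) + (N : ℝ) / (2 * L ^ U) = N / L ^ U := by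
      field_simp
      ring
    linarith [f1, f2, f3, f5]

end Pool.Agent.W23.UL
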