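import Pool.Agent.W23.UL.Fin1

/-! UL project: counting, lemmas. -/

namespace Pool.Agent.W23.UL

open Finset Polynomial
open Pool.Agent.H373R2.T7

lemma filt_prod (z : ℕ) (l : List ℕ) :
    (l.filter (fun p => z < p)).prod * (l.filter (fun p => p ≤ z)).prod = l.prod := by
  induction l with
  | nil => simp
  | cons a l ih =>
    rw [List.filter_cons, List.filter_cons]
    rcases lt_or_ge z a with h | h
    · have h' : ¬ a ≤ z := by omega
      simp only [h, h', decide_true, decide_false, if_true, List.prod_cons]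
      rw [mul_assoc, ← ih]
      simp
    · have h' : ¬ z < a := by omega
      simp only [h, h', decide_true, decide_false, if_true, List.prod_cons]
      rw [← ih]
      simp
      ring

lemma rgh_mul_smo (z v : ℕ) (hv : v ≠ 0) : rgh z v * smo z v = v := by
  unfold rgh smo
  rw [filt_prod, Nat.prod_primeFactorsList hv]

lemma rgh_dvd (z v : ℕ) (hv : v ≠ 0) : rgh z v ∣ v := ⟨_, (rgh_mul_smo z v hv).symm⟩

lemma rgh_pos (z v : ℕ) (hv : v ≠ 0) : 0 < rgh z v := Nat.pos_of_dvd_of_pos (rgh_dvd z v hv) (Nat.pos_of_ne_zero hv)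

lemma lt_of_dvd_rgh {z v p : ℕ} (hp : p.Prime) (h : p ∣ rgh z v) : z < p := by
  unfold rgh at h
  obtain ⟨a, ha, hpa⟩ := (hp.prime.dvd_prod_iff).1 h
  rw [List.mem_filter] at ha
  have h1 := Nat.prime_of_mem_primeFactorsList ha.1
  have h2 := (Nat.prime_dvd_prime_iff_eq hp h1).1 hpa
  rw [h2]
  simpa using ha.2

/-- divisible by the square of an integer larger than `z` -/
def sqd (z v : ℕ) : Prop := ∃ p : ℕ, z < p ∧ p ^ 2 ∣ v

lemma prime_of_lam {z v : ℕ} (hv : v ≠ 0) (h : ArithmeticFunction.vonMangoldt (rgh z v) ≠ 0) (hs : ¬ sqd z v) :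
    (rgh z v).Prime := by
  rw [ArithmeticFunction.vonMangoldt_ne_zero_iff] at h
  rw [isPrimePow_nat_iff] at h
  obtain ⟨p, j, hp, hj, h⟩ := h
  have hpd : p ∣ rgh z v := by rw [← h]; exact dvd_pow_self p hj.ne'
  have hzp := lt_of_dvd_rgh hp hpd
  rcases Nat.lt_or_ge j 2 with h2 | h2
  · have : j = 1 := by omega
    subst this
    rw [pow_one] at h
    rw [← h]; exact hp
  · exfalso
    apply hs
    refine ⟨p, hzp, ?_⟩
    exact ((pow_dvd_pow p h2).trans (by rw [h])).trans (rgh_dvd z v hv)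

open Classical in
lemma card_sqd (z M : ℕ) (hz : 1 ≤ z) : (((Icc 1 M).filter (fun v => sqd z v)).card : ℝ) ≤ M / z := by
  have h1 : (Icc 1 M).filter (fun v => sqd z v) ⊆ (Icc (z + 1) M).biUnion (fun p => (Icc 1 M).filter (fun v => p ^ 2 ∣ v)) := by
    intro v hv
    rw [mem_filter, mem_Icc] at hv
    obtain ⟨⟨h1, h2⟩, p, hp, hd⟩ := hv
    rw [mem_biUnion]
    refine ⟨p, ?_, ?_⟩
    · rw [mem_Icc]
      refine ⟨hp, ?_⟩
      have h3 := Nat.le_of_dvd (by omega) hd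
      nlinarith
    · rw [mem_filter, mem_Icc]
      exact ⟨⟨h1, h2⟩, hd⟩
  have h2 : (((Icc 1 M).filter (fun v => sqd z v)).card : ℝ) ≤ ∑ p ∈ Icc (z + 1) M, (M : ℝ) / (p : ℝ) ^ 2 := by
    have h3 := (card_le_card h1).trans card_biUnion_le
    calc (((Icc 1 M).filter (fun v => sqd z v)).card : ℝ) ≤ ((∑ p ∈ Icc (z + 1) M, ((Icc 1 M).filter (fun v => p ^ 2 ∣ v)).card : ℕ) : ℝ) := by
          exact_mod_cast h3
      _ = ∑ p ∈ Icc (z + 1) M, (((Icc 1 M).filter (fun v => p ^ 2 ∣ v)).card : ℝ) := by push_cast; rfl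
      _ ≤ _ := by
          apply sum_le_sum
          intro p hp
          have h4 : ((Icc 1 M).filter (fun v => p ^ 2 ∣ v)).card = M / p ^ 2 := by
            have := Nat.Ioc_filter_dvd_card_eq_div M (p ^ 2)
            rwa [show (Ioc 0 M) = Icc 1 M from rfl] at this
          rw [h4]
          have := Nat.cast_div_le (α := ℝ) (m := M) (n := p ^ 2)
          push_cast at this
          exact this
  refine h2.trans ?_
  have h3 : ∀ K : ℕ, z ≤ K → ∑ p ∈ Icc (z + 1) K, 1 / (p : ℝ) ^ 2 ≤ 1 / (z : ℝ) - 1 / (K : ℝ) := by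
    intro K hK
    induction K, hK using Nat.le_induction with
    | base => simp
    | succ K hK ih =>
      rw [Finset.sum_Icc_succ_top (by omega)]
      have hKr : (1 : ℝ) ≤ K := by exact_mod_cast hz.trans hK
      have h5 : 1 / ((K + 1 : ℕ) : ℝ) ^ 2 ≤ 1 / (K : ℝ) - 1 / ((K + 1 : ℕ) : ℝ) := by
        push_cast
        rw [div_sub_div _ _ (by positivity) (by positivity), div_le_div_iff₀ (by positivity) (by positivity)]
        nlinarith
      linarith
  rcases lt_or_ge M z with h4 | h4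
  · rw [Icc_eq_empty (by omega), sum_empty]
    positivity
  · have h5 := h3 M h4
    calc ∑ p ∈ Icc (z + 1) M, (M : ℝ) / (p : ℝ) ^ 2 = M * ∑ p ∈ Icc (z + 1) M, 1 / (p : ℝ) ^ 2 := by
          rw [mul_sum]; apply sum_congr rfl; intro p _; ring
      _ ≤ M * (1 / z) := by
          apply mul_le_mul_of_nonneg_left _ (Nat.cast_nonneg _)
          have : (0 : ℝ) ≤ 1 / M := by positivity
          linarith
      _ = _ := by ring

open Classical in
/-- few integers have a small rough part or a large square factor -/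
lemma few_bad (hS : St_SMB) (E Q c1 : ℕ) (hc1 : 1 ≤ c1) (τ : ℝ) (hτ : 0 < τ) (hτ1 : τ < 1) : ∃ N0 : ℕ, ∀ N : ℕ, N0 ≤ N → ∀ z : ℕ,
    Real.log N ^ (Q + 1) ≤ z → (z : ℝ) ≤ Real.log N ^ E →
    (((Icc 1 (c1 * N)).filter (fun v => sqd z v ∨ (rgh z v : ℝ) ≤ (N : ℝ) ^ (1 - τ))).card : ℝ) ≤ N / Real.log N ^ Q := by
  obtain ⟨N1, h1⟩ := hS E (Q + 1) (τ / 4) (by positivity)
  obtain ⟨N2, h2⟩ := ev_L' (4 * c1)
  have hlo : ∃ N3 : ℕ, ∀ N : ℕ, N3 ≤ N → 4 * Real.log N ^ Q ≤ (N : ℝ) ^ (τ / 2) := by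
    have h := (isLittleO_log_rpow_rpow_atTop (Q : ℝ) (show (0 : ℝ) < τ / 2 by positivity)).bound (show (0 : ℝ) < 1 / 4 by norm_num)
    have h2 := (tendsto_natCast_atTop_atTop (R := ℝ)).eventually h
    obtain ⟨x0, hx0⟩ := Filter.eventually_atTop.1 h2
    refine ⟨max x0 1, fun x hx => ?_⟩
    have h3 := hx0 x ((le_max_left _ _).trans hx)
    have h4 : (1 : ℝ) ≤ x := by exact_mod_cast (le_max_right _ _).trans hx
    rw [Real.rpow_natCast, Real.norm_of_nonneg (pow_nonneg (Real.log_nonneg h4) _), Real.norm_of_nonneg (by positivity)] at h3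
    linarith
  obtain ⟨N3, h3⟩ := hlo
  refine ⟨max (max N1 N2) (max N3 (c1 + 3)), fun N hN z hz1 hz2 => ?_⟩
  have a1 : N1 ≤ N := by omega
  have a2 : N2 ≤ N := by omega
  have a3 : N3 ≤ N := by omega
  have a4 : c1 + 3 ≤ N := by omega
  have hNr : (3 : ℝ) ≤ N := by exact_mod_cast (by omega : 3 ≤ N)
  have hc1r : (1 : ℝ) ≤ c1 := by exact_mod_cast hc1
  have hcN : (c1 : ℝ) < N := by exact_mod_cast (by omega : c1 < N)
  have hN0 : (0 : ℝ) < N := by linarith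
  have hLc := h2 N a2
  have hbig := h3 N a3
  set L := Real.log N with hL
  have hL1 : 1 ≤ L := by linarith
  have hL0 : 0 < L := by linarith
  have hz : 1 ≤ z := by
    have : (1 : ℝ) ≤ z := (one_le_pow₀ hL1).trans hz1
    exact_mod_cast this
  have hMN : N ≤ c1 * N := Nat.le_mul_of_pos_left _ (by omega)
  have hlogM : L ≤ Real.log ((c1 * N : ℕ) : ℝ) := by
    rw [hL]
    apply Real.log_le_log hN0
    exact_mod_cast hMN
  have hsm := h1 (c1 * N) (a1.trans hMN) z hz (hz2.trans (pow_le_pow_left₀ hL0.le hlogM _))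
  have hsub : (Icc 1 (c1 * N)).filter (fun v => sqd z v ∨ (rgh z v : ℝ) ≤ (N : ℝ) ^ (1 - τ)) ⊆
      (Icc 1 (c1 * N)).filter (fun v => sqd z v) ∪
      ((Icc 1 (c1 * N)).filter (fun v : ℕ => (((c1 * N : ℕ) : ℝ)) ^ (τ / 4) < smo z v) ∪
       Icc 1 (⌊(N : ℝ) ^ (1 - τ / 2)⌋₊)) := by
    intro v hv
    rw [mem_filter, mem_Icc] at hv
    obtain ⟨⟨hv1, hv2⟩, h⟩ := hv
    rw [mem_union, mem_union, mem_filter, mem_filter, mem_Icc, mem_Icc]
    rcases h with h | h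
    · exact Or.inl ⟨⟨hv1, hv2⟩, h⟩
    · right
      rcases le_or_gt (v : ℝ) ((N : ℝ) ^ (1 - τ / 2)) with h4 | h4
      · right
        exact ⟨hv1, Nat.le_floor h4⟩
      · left
        refine ⟨⟨hv1, hv2⟩, ?_⟩
        have h5 := rgh_mul_smo z v (by omega)
        have h6 : (rgh z v : ℝ) * smo z v = v := by exact_mod_cast h5
        have h7 : (N : ℝ) ^ (1 - τ / 2) = (N : ℝ) ^ (1 - τ) * (N : ℝ) ^ (τ / 2) := by
          rw [← Real.rpow_add hN0]; congr 1; ring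
        have h8 : (0 : ℝ) < (N : ℝ) ^ (1 - τ) := by positivity
        have h9 : (N : ℝ) ^ (τ / 2) < smo z v := by
          by_contra h10
          push Not at h10
          have : (rgh z v : ℝ) * smo z v ≤ (N : ℝ) ^ (1 - τ) * (N : ℝ) ^ (τ / 2) := by
            apply mul_le_mul h h10 (Nat.cast_nonneg _) h8.le
          linarith
        refine lt_of_le_of_lt ?_ h9
        push_cast
        rw [Real.mul_rpow (by positivity) (by positivity)]
        have h11 : (c1 : ℝ) ^ (τ / 4) ≤ (N : ℝ) ^ (τ / 4) := Real.rpow_le_rpow (by positivity) hcN.le (by positivity)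
        calc (c1 : ℝ) ^ (τ / 4) * (N : ℝ) ^ (τ / 4) ≤ (N : ℝ) ^ (τ / 4) * (N : ℝ) ^ (τ / 4) := by gcongr
          _ = (N : ℝ) ^ (τ / 2) := by rw [← Real.rpow_add hN0]; congr 1; ring
  have hcard : (((Icc 1 (c1 * N)).filter (fun v => sqd z v ∨ (rgh z v : ℝ) ≤ (N : ℝ) ^ (1 - τ))).card : ℝ) ≤
      ((c1 * N : ℕ) : ℝ) / z + (((c1 * N : ℕ) : ℝ) / Real.log ((c1 * N : ℕ) : ℝ) ^ (Q + 1) + (N : ℝ) ^ (1 - τ / 2)) := by
    have e1 := (card_le_card hsub).trans (card_union_le _ _)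
    have e2 := card_union_le ((Icc 1 (c1 * N)).filter (fun v : ℕ => (((c1 * N : ℕ) : ℝ)) ^ (τ / 4) < smo z v)) (Icc 1 (⌊(N : ℝ) ^ (1 - τ / 2)⌋₊))
    rw [Nat.card_Icc, Nat.add_sub_cancel] at e2
    have e3 := card_sqd z (c1 * N) hz
    have e4 := Nat.floor_le (show (0 : ℝ) ≤ (N : ℝ) ^ (1 - τ / 2) by positivity)
    have e5 : (((Icc 1 (c1 * N)).filter (fun v => sqd z v ∨ (rgh z v : ℝ) ≤ (N : ℝ) ^ (1 - τ))).card : ℝ) ≤
      (((Icc 1 (c1 * N)).filter (fun v => sqd z v)).card : ℝ) + ((((Icc 1 (c1 * N)).filter (fun v : ℕ => (((c1 * N : ℕ) : ℝ)) ^ (τ / 4) < smo z v)).card : ℝ) +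
        ⌊(N : ℝ) ^ (1 - τ / 2)⌋₊) := by exact_mod_cast e1.trans (Nat.add_le_add_left e2 _)
    linarith
  refine hcard.trans ?_
  have g1 : ((c1 * N : ℕ) : ℝ) / z ≤ (1 / 4) * (N / L ^ Q) := by
    calc ((c1 * N : ℕ) : ℝ) / z ≤ ((c1 * N : ℕ) : ℝ) / L ^ (Q + 1) := by
          apply div_le_div_of_nonneg_left (Nat.cast_nonneg _) (by positivity) hz1
      _ = (c1 / L) * (N / L ^ Q) := by push_cast; rw [pow_succ]; field_simp
      _ ≤ (1 / 4) * (N / L ^ Q) := by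
          apply mul_le_mul_of_nonneg_right _ (by positivity)
          rw [div_le_div_iff₀ hL0 (by norm_num)]; linarith
  have g2 : ((c1 * N : ℕ) : ℝ) / Real.log ((c1 * N : ℕ) : ℝ) ^ (Q + 1) ≤ (1 / 4) * (N / L ^ Q) := by
    calc ((c1 * N : ℕ) : ℝ) / Real.log ((c1 * N : ℕ) : ℝ) ^ (Q + 1) ≤ ((c1 * N : ℕ) : ℝ) / L ^ (Q + 1) := by
          apply div_le_div_of_nonneg_left (Nat.cast_nonneg _) (by positivity) (pow_le_pow_left₀ hL0.le hlogM _)
      _ = (c1 / L) * (N / L ^ Q) := by push_cast; rw [pow_succ]; field_simp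
      _ ≤ (1 / 4) * (N / L ^ Q) := by
          apply mul_le_mul_of_nonneg_right _ (by positivity)
          rw [div_le_div_iff₀ hL0 (by norm_num)]; linarith
  have g3 : (N : ℝ) ^ (1 - τ / 2) ≤ (1 / 4) * (N / L ^ Q) := by
    have h7 : (N : ℝ) = (N : ℝ) ^ (1 - τ / 2) * (N : ℝ) ^ (τ / 2) := by
      rw [← Real.rpow_add hN0]
      rw [show 1 - τ / 2 + τ / 2 = 1 by ring, Real.rpow_one]
    have h8 : (0 : ℝ) < (N : ℝ) ^ (1 - τ / 2) := by positivity
    rw [← mul_div_assoc, le_div_iff₀ (by positivity)]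
    calc (N : ℝ) ^ (1 - τ / 2) * L ^ Q = (1 / 4) * ((N : ℝ) ^ (1 - τ / 2) * (4 * L ^ Q)) := by ring
      _ ≤ (1 / 4) * ((N : ℝ) ^ (1 - τ / 2) * (N : ℝ) ^ (τ / 2)) := by gcongr
      _ = (1 / 4) * N := by rw [← h7]
  have g4 : 0 ≤ N / L ^ Q := by positivity
  linarith

end Pool.Agent.W23.UL
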