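import Pool.Agent.W23.UL.Fin2

/-! UL project: the counting theorem. -/

namespace Pool.Agent.W23.UL

open Finset Polynomial
open Pool.Agent.H373R2.T7

/-- the rough part of the integer `v` (the part composed of primes `> z`) is a prime -/
def prm (z : ℕ) (v : ℤ) : Prop := 1 ≤ v ∧ (rgh z v.toNat).Prime

lemma qI_nonneg (z : ℕ) (v : ℤ) : 0 ≤ qI z v := by
  unfold qI
  split_ifs
  · exact ArithmeticFunction.vonMangoldt_nonneg
  · exact le_rfl

lemma qI_le (z : ℕ) (v : ℤ) (M : ℕ) (hM : 1 ≤ M) (h : v ≤ M) : qI z v ≤ Real.log M := by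
  unfold qI
  split_ifs with h1
  · refine ArithmeticFunction.vonMangoldt_le_log.trans ?_
    have h2 : v.toNat ≠ 0 := by omega
    apply Real.log_le_log
    · exact_mod_cast rgh_pos z _ h2
    · have := Nat.le_of_dvd (Nat.pos_of_ne_zero h2) (rgh_dvd z _ h2)
      exact_mod_cast (by omega : rgh z v.toNat ≤ M)
  · exact Real.log_nonneg (by exact_mod_cast hM)

lemma tau_ineq (k : ℕ) (ε : ℝ) (hε : 0 < ε) : ∃ τ : ℝ, 0 < τ ∧ τ < 1 ∧ 1 - ε / 4 ≤ (1 - τ) ^ k ∧ (1 - τ) ^ k ≤ 1 ∧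
    (1 + τ) ^ k * (1 - τ) ^ k ≤ 1 ∧ 1 / 2 ≤ (1 - τ) ^ k := by
  set τ : ℝ := min ε 1 / (4 * (k + 1)) with hτ
  have hm : 0 < min ε 1 := lt_min hε one_pos
  have hk : (0 : ℝ) < k + 1 := by positivity
  have hτ0 : 0 < τ := by positivity
  have hτk : k * τ ≤ min ε 1 / 4 := by
    rw [hτ]
    rw [mul_div_assoc', div_le_div_iff₀ (by positivity) (by norm_num)]
    nlinarith
  have hτ1 : τ < 1 := by
    rw [hτ, div_lt_one (by positivity)]
    have : min ε 1 ≤ 1 := min_le_right _ _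
    nlinarith [Nat.cast_nonneg (α := ℝ) k]
  have hb := one_add_mul_le_pow (a := -τ) (by linarith) k
  have hb' : 1 - k * τ ≤ (1 - τ) ^ k := by
    have : (1 + (k : ℝ) * -τ) = 1 - k * τ := by ring
    rw [this] at hb
    simpa [sub_eq_add_neg] using hb
  have e1 : min ε 1 ≤ ε := min_le_left _ _
  have e2 : min ε 1 ≤ 1 := min_le_right _ _
  refine ⟨τ, hτ0, hτ1, by linarith, pow_le_one₀ (by linarith) (by linarith), ?_, by linarith⟩
  rw [← mul_pow]
  apply pow_le_one₀
  · apply mul_nonneg <;> linarith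
  · nlinarith

lemma arith (G W D e ε T1 T2 Lk k S : ℝ) (hG : 0 ≤ G) (hW : 0 ≤ W) (hk : 0 ≤ k) (he : 0 ≤ e) (hD : 0 ≤ D)
    (hε : 0 < ε) (hL : 1 ≤ Lk) (hT1 : 1 ≤ T1) (hT2 : 0 < T2) (ht1 : 1 - ε / 4 ≤ T2) (ht2 : T2 ≤ 1) (ht3 : T1 * T2 ≤ 1)
    (ht4 : 1 / 2 ≤ T2) (hWk : W ≤ k * e) (hke : 16 * (k + 1) * e ≤ ε * D) (heD : e ≤ D / 2)
    (m1 : -e ≤ S - D * Lk) (m2 : S - D * Lk ≤ e) (hS1 : S ≤ (G + W) * (T1 * Lk)) (hS2 : (G - W) * (T2 * Lk) ≤ S) :
    |G - D| ≤ ε * D := by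
  have hL0 : 0 < Lk := by linarith
  have heL : e ≤ e * Lk := le_mul_of_one_le_right he hL
  have u7 : 16 * e ≤ ε * D := by
    have : 0 ≤ k * e := mul_nonneg hk he
    linarith
  have u8 : 16 * (k * e) ≤ ε * D := by linarith
  have hW2 : 16 * W ≤ ε * D := by linarith
  have hlow : D - ε * D ≤ G := by
    have u1 : (D - e) * Lk ≤ ((G + W) * T1) * Lk := by
      have e1 : (D - e) * Lk = D * Lk - e * Lk := by ring
      have e2 : ((G + W) * T1) * Lk = (G + W) * (T1 * Lk) := by ring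
      rw [e1, e2]; linarith
    have u2 := le_of_mul_le_mul_right u1 hL0
    have u3 : (D - e) * T2 ≤ G + W := by
      calc (D - e) * T2 ≤ ((G + W) * T1) * T2 := mul_le_mul_of_nonneg_right u2 hT2.le
        _ = (G + W) * (T1 * T2) := by ring
        _ ≤ (G + W) * 1 := mul_le_mul_of_nonneg_left ht3 (by linarith)
        _ = _ := mul_one _
    have u4 : D * (1 - ε / 4) ≤ D * T2 := mul_le_mul_of_nonneg_left ht1 hD
    have u5 : e * T2 ≤ e := mul_le_of_le_one_right he ht2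
    have u6 : (D - e) * T2 = D * T2 - e * T2 := by ring
    have u9 : D * (1 - ε / 4) = D - ε * D / 4 := by ring
    linarith
  have hupp : G ≤ D + ε * D := by
    have u1 : ((G - W) * T2) * Lk ≤ (D + e) * Lk := by
      have e1 : (D + e) * Lk = D * Lk + e * Lk := by ring
      have e2 : ((G - W) * T2) * Lk = (G - W) * (T2 * Lk) := by ring
      rw [e1, e2]; linarith
    have u2 := le_of_mul_le_mul_right u1 hL0
    have u5 : 1 ≤ (1 + ε / 2) * T2 := by
      rcases le_or_gt ε 2 with h' | h'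
      · calc (1 : ℝ) ≤ (1 + ε / 2) * (1 - ε / 4) := by nlinarith
          _ ≤ _ := mul_le_mul_of_nonneg_left ht1 (by linarith)
      · calc (1 : ℝ) ≤ (1 + ε / 2) * (1 / 2) := by linarith
          _ ≤ _ := mul_le_mul_of_nonneg_left ht4 (by linarith)
    have u3 : G - W ≤ (D + e) * (1 + ε / 2) := by
      have v1 : (G - W) * T2 ≤ ((D + e) * (1 + ε / 2)) * T2 := by
        calc (G - W) * T2 ≤ (D + e) * 1 := by linarith
          _ ≤ (D + e) * ((1 + ε / 2) * T2) := mul_le_mul_of_nonneg_left u5 (by linarith)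
          _ = _ := by ring
      exact le_of_mul_le_mul_right v1 hT2
    have u9 : e * (ε / 2) ≤ (D / 2) * (ε / 2) := mul_le_mul_of_nonneg_right heD (by linarith)
    have u10 : (D + e) * (1 + ε / 2) = D + ε * D / 2 + e + e * (ε / 2) := by ring
    have u11 : (D / 2) * (ε / 2) = ε * D / 4 := by ring
    linarith
  rw [abs_le]
  constructor <;> linarith

open Classical in
theorem count (hT : St_TUPR) (hS : St_SMB) (k : ℕ) (f : Fin k → ℤ[X]) (hf : ∀ i, 1 ≤ (f i).natDegree)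
    (hl : ∀ i, 0 < (f i).leadingCoeff) (B : ℕ) (hB : 1 ≤ B) (C U : ℕ) (ε : ℝ) (hε : 0 < ε) :
    ∃ B0 : ℕ, ∀ E : ℕ, ∃ N0 : ℕ, ∀ N : ℕ, N0 ≤ N → ∀ x : Fin k → ℕ,
      (∀ i, N ≤ B * x i ^ (f i).natDegree ∧ x i ^ (f i).natDegree ≤ B * N) →
      ∀ z : ℕ, Real.log N ^ B0 ≤ z → (z : ℝ) ≤ Real.log N ^ E →
      ∀ A : Finset ℕ, A ⊆ Icc 1 N → N / Real.log N ^ C ≤ (A.card : ℝ) →
      ∃ H : Finset (Fin k → ℕ), (H.card : ℝ) ≤ (∏ i, (x i : ℝ)) / Real.log N ^ U ∧
        ∀ m ∈ Fintype.piFinset (fun i => Icc 1 (x i)), m ∉ H →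
          |((A.filter (fun n : ℕ => ∀ i, prm z ((n : ℤ) + (f i).eval (m i : ℤ)))).card : ℝ) -
            A.card / (Vz z * Real.log N) ^ k| ≤ ε * (A.card / (Vz z * Real.log N) ^ k) := by
  obtain ⟨τ, hτ0, hτ1, ht1, ht2, ht3, ht4⟩ := tau_ineq k ε hε
  obtain ⟨B0, hB0⟩ := law hT k f hf hl B hB (max U (C + k + 1))
  set Q : ℕ := C + 2 * k + 1 with hQ
  refine ⟨max B0 (Q + 1), fun E => ?_⟩
  obtain ⟨N0, h0⟩ := hB0 E
  set c1 : ℕ := 1 + univ.sup (fun i => cf (f i)) * B with hc1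
  obtain ⟨N1, h1⟩ := few_bad hS E Q c1 (by omega) τ hτ0 hτ1
  obtain ⟨N2, h2⟩ := ev_L' (max (Real.log c1 / τ) (max (16 * (k + 1) * 4 ^ k / ε) 2))
  refine ⟨max (max N0 N1) (max N2 (c1 + 3)), fun N hN x hx z hz1 hz2 A hA hAc => ?_⟩
  have a0 : N0 ≤ N := by omega
  have a1 : N1 ≤ N := by omega
  have a2 : N2 ≤ N := by omega
  have a4 : c1 + 3 ≤ N := by omega
  have hNr : (3 : ℝ) ≤ N := by exact_mod_cast (by omega : 3 ≤ N)
  have hc1r : (1 : ℝ) ≤ c1 := by exact_mod_cast (by omega : 1 ≤ c1)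
  have hN0 : (0 : ℝ) < N := by linarith
  have hLc := h2 N a2
  set L := Real.log N with hL
  have hL2 : 2 ≤ L := ((le_max_right _ _).trans (le_max_right _ _)).trans hLc
  have hLτ : Real.log c1 / τ ≤ L := (le_max_left _ _).trans hLc
  have hLε : 16 * (k + 1) * 4 ^ k / ε ≤ L := ((le_max_left _ _).trans (le_max_right _ _)).trans hLc
  have hL1 : 1 ≤ L := by linarith
  have hL0 : 0 < L := by linarith
  have hz : 1 ≤ z := by
    have : (1 : ℝ) ≤ z := (one_le_pow₀ hL1).trans hz1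
    exact_mod_cast this
  have hV0 := Vz_pos z
  have hV1 := Vz_le_one z
  obtain ⟨H, hH, hHm⟩ := h0 N a0 x hx z ((pow_le_pow_right₀ hL1 (le_max_left _ _)).trans hz1) hz2
    (fun n => if n ∈ A then 1 else 0) (by intro n; split_ifs <;> simp)
  have hprod : 0 ≤ ∏ i, (x i : ℝ) := prod_nonneg fun _ _ => Nat.cast_nonneg _
  refine ⟨H, hH.trans ?_, fun m hm hmH => ?_⟩
  · exact div_le_div_of_nonneg_left hprod (by positivity) (pow_le_pow_right₀ hL1 (le_max_left _ _))
  have hmain := hHm m hm hmH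
  have hmain2 : |∑ n ∈ A, ∏ i, qI z ((n : ℤ) + (f i).eval (m i : ℤ)) - (Vz z)⁻¹ ^ k * A.card| ≤ N / L ^ (C + k + 1) := by
    have e1 : ∑ n ∈ Icc 1 N, (if n ∈ A then (1 : ℝ) else 0) * ∏ i, qI z ((n : ℤ) + (f i).eval (m i : ℤ)) =
        ∑ n ∈ A, ∏ i, qI z ((n : ℤ) + (f i).eval (m i : ℤ)) := by
      have : ∀ n, (if n ∈ A then (1 : ℝ) else 0) * ∏ i, qI z ((n : ℤ) + (f i).eval (m i : ℤ)) =
          if n ∈ A then ∏ i, qI z ((n : ℤ) + (f i).eval (m i : ℤ)) else 0 := by
        intro n; split_ifs <;> simp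
      simp only [this]
      rw [← sum_filter]
      congr 1
      ext n
      rw [mem_filter]
      exact ⟨fun h => h.2, fun h => ⟨hA h, h⟩⟩
    have e2 : ∑ n ∈ Icc 1 N, (if n ∈ A then (1 : ℝ) else 0) = A.card := by
      rw [← sum_filter]
      rw [sum_const, nsmul_eq_mul, mul_one]
      congr 2
      ext n
      rw [mem_filter]
      exact ⟨fun h => h.2, fun h => ⟨hA h, h⟩⟩
    rw [e1, e2] at hmain
    refine hmain.trans ?_
    exact div_le_div_of_nonneg_left hN0.le (by positivity) (pow_le_pow_right₀ hL1 (le_max_right _ _))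
  -- the bad set
  set v : Fin k → ℕ → ℤ := fun i n => (n : ℤ) + (f i).eval (m i : ℤ) with hv
  set Wb : Finset ℕ := (Icc 1 (c1 * N)).filter (fun v => sqd z v ∨ (rgh z v : ℝ) ≤ (N : ℝ) ^ (1 - τ)) with hWb
  set W : Finset ℕ := univ.biUnion (fun i => (Icc 1 N).filter (fun n => 1 ≤ v i n ∧ (v i n).toNat ∈ Wb)) with hW
  have hWbc := h1 N a1 z ((pow_le_pow_right₀ hL1 (le_max_right _ _)).trans hz1) hz2
  rw [← hWb] at hWbc
  have hWc : (W.card : ℝ) ≤ k * (N / L ^ Q) := by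
    have e1 : W.card ≤ ∑ i : Fin k, ((Icc 1 N).filter (fun n => 1 ≤ v i n ∧ (v i n).toNat ∈ Wb)).card := card_biUnion_le
    have e2 : ∀ i : Fin k, ((Icc 1 N).filter (fun n => 1 ≤ v i n ∧ (v i n).toNat ∈ Wb)).card ≤ Wb.card := by
      intro i
      apply card_le_card_of_injOn (fun n => (v i n).toNat)
      · intro n hn
        exact (mem_filter.1 hn).2.2
      · intro a ha b hb hab
        have ha1 := (mem_filter.1 ha).2.1
        have hb1 := (mem_filter.1 hb).2.1
        simp only [hv] at ha1 hb1 hab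
        omega
    have e3 : W.card ≤ k * Wb.card := by
      refine e1.trans ((sum_le_sum (fun i _ => e2 i)).trans ?_)
      rw [sum_const, card_univ, Fintype.card_fin, smul_eq_mul]
    calc (W.card : ℝ) ≤ ((k * Wb.card : ℕ) : ℝ) := by exact_mod_cast e3
      _ = k * (Wb.card : ℝ) := by push_cast; ring
      _ ≤ _ := by gcongr
  have hup : ∀ i, ∀ n ∈ Icc 1 N, v i n ≤ ((c1 * N : ℕ) : ℤ) := by
    intro i n hn
    rw [mem_Icc] at hn
    have hmi := (Fintype.mem_piFinset.1 hm) i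
    rw [mem_Icc] at hmi
    have h4 := (abs_le.1 (abs_eval_le (f i) (m i) hmi.1)).2
    have h5 : cf (f i) * m i ^ (f i).natDegree ≤ univ.sup (fun i => cf (f i)) * (B * N) := by
      apply Nat.mul_le_mul (le_sup (f := fun i => cf (f i)) (mem_univ i))
      exact (Nat.pow_le_pow_left hmi.2 _).trans (hx i).2
    have h7 : ((cf (f i) * m i ^ (f i).natDegree : ℕ) : ℤ) ≤ ((univ.sup (fun i => cf (f i)) * (B * N) : ℕ) : ℤ) := by exact_mod_cast h5
    have h8 : (n : ℤ) ≤ N := by exact_mod_cast hn.2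
    have h9 : ((c1 * N : ℕ) : ℤ) = N + ((univ.sup (fun i => cf (f i)) * (B * N) : ℕ) : ℤ) := by rw [hc1]; push_cast; ring
    have h10 : ((cf (f i) * m i ^ (f i).natDegree : ℕ) : ℤ) = (cf (f i) : ℤ) * (m i : ℤ) ^ (f i).natDegree := by push_cast; ring
    rw [h9]
    rw [h10] at h7
    simp only [hv]
    linarith
  have hM1 : 1 ≤ c1 * N := Nat.mul_pos (by omega) (by omega)
  have hlogM : Real.log ((c1 * N : ℕ) : ℝ) ≤ (1 + τ) * L := by
    push_cast
    rw [Real.log_mul (by linarith) hN0.ne']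
    rw [div_le_iff₀ hτ0] at hLτ
    linarith
  have hlogM0 : 0 ≤ Real.log ((c1 * N : ℕ) : ℝ) := Real.log_nonneg (by exact_mod_cast hM1)
  set G : Finset ℕ := A.filter (fun n => ∀ i, prm z (v i n)) with hG
  set P : ℕ → ℝ := fun n => ∏ i, qI z (v i n) with hP
  have hP0 : ∀ n, 0 ≤ P n := fun n => prod_nonneg fun i _ => qI_nonneg _ _
  have hPle : ∀ n ∈ A, P n ≤ ((1 + τ) * L) ^ k := by
    intro n hn
    have : P n ≤ ∏ _i : Fin k, ((1 + τ) * L) := by
      apply prod_le_prod (fun i _ => qI_nonneg _ _)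
      intro i _
      exact (qI_le z _ (c1 * N) hM1 (hup i n (hA hn))).trans hlogM
    rwa [prod_const, card_univ, Fintype.card_fin] at this
  have hPz : ∀ n ∈ A, n ∉ G → n ∉ W → P n = 0 := by
    intro n hn hnG hnW
    by_contra hne
    apply hnG
    rw [hG, mem_filter]
    refine ⟨hn, fun i => ?_⟩
    have h4 : qI z (v i n) ≠ 0 := by
      intro h
      exact hne (prod_eq_zero (mem_univ i) h)
    unfold qI at h4
    have h5 : 1 ≤ v i n := by
      by_contra h
      rw [if_neg h] at h4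
      exact h4 rfl
    rw [if_pos h5] at h4
    refine ⟨h5, prime_of_lam (by omega) h4 ?_⟩
    intro hs
    apply hnW
    rw [hW, mem_biUnion]
    refine ⟨i, mem_univ i, ?_⟩
    rw [mem_filter]
    refine ⟨hA hn, h5, ?_⟩
    rw [hWb, mem_filter, mem_Icc]
    have := hup i n (hA hn)
    exact ⟨⟨by omega, by omega⟩, Or.inl hs⟩
  have hPlow : ∀ n ∈ G, n ∉ W → ((1 - τ) * L) ^ k ≤ P n := by
    intro n hn hnW
    rw [hG, mem_filter] at hn
    have : ∏ _i : Fin k, ((1 - τ) * L) ≤ P n := by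
      apply prod_le_prod
      · intro i _
        apply mul_nonneg _ hL0.le
        linarith
      · intro i _
        obtain ⟨h5, h6⟩ := hn.2 i
        unfold qI
        rw [if_pos h5, ArithmeticFunction.vonMangoldt_apply_prime h6]
        have h7 : (N : ℝ) ^ (1 - τ) < (rgh z (v i n).toNat : ℝ) := by
          by_contra h
          push Not at h
          apply hnW
          rw [hW, mem_biUnion]
          refine ⟨i, mem_univ i, ?_⟩
          rw [mem_filter]
          refine ⟨hA hn.1, h5, ?_⟩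
          rw [hWb, mem_filter, mem_Icc]
          have := hup i n (hA hn.1)
          exact ⟨⟨by omega, by omega⟩, Or.inr h⟩
        have h8 := Real.log_le_log (by positivity) h7.le
        rw [Real.log_rpow hN0] at h8
        exact h8
    rwa [prod_const, card_univ, Fintype.card_fin] at this
  -- sums
  have hS1 : ∑ n ∈ A, P n ≤ ((G.card : ℝ) + W.card) * ((1 + τ) * L) ^ k := by
    have e1 : ∑ n ∈ A, P n ≤ ∑ n ∈ A, if n ∈ G ∪ W then ((1 + τ) * L) ^ k else 0 := by
      apply sum_le_sum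
      intro n hn
      split_ifs with h
      · exact hPle n hn
      · rw [mem_union, not_or] at h
        exact (hPz n hn h.1 h.2).le
    refine e1.trans ?_
    rw [← sum_filter, sum_const, nsmul_eq_mul]
    apply mul_le_mul_of_nonneg_right _ (by positivity)
    have e2 : (A.filter (fun n => n ∈ G ∪ W)).card ≤ G.card + W.card :=
      (card_le_card (fun n hn => (mem_filter.1 hn).2)).trans (card_union_le _ _)
    exact_mod_cast e2
  have hS2 : ((G.card : ℝ) - W.card) * ((1 - τ) * L) ^ k ≤ ∑ n ∈ A, P n := by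
    have hp : 0 ≤ ((1 - τ) * L) ^ k := pow_nonneg (mul_nonneg (by linarith) hL0.le) _
    have e1 : ((G.card : ℝ) - W.card) ≤ ((G \ W).card : ℝ) := by
      have := le_card_sdiff W G
      have h' : G.card ≤ (G \ W).card + W.card := by omega
      have h'' : (G.card : ℝ) ≤ (G \ W).card + W.card := by exact_mod_cast h'
      linarith
    calc ((G.card : ℝ) - W.card) * ((1 - τ) * L) ^ k ≤ ((G \ W).card : ℝ) * ((1 - τ) * L) ^ k :=
          mul_le_mul_of_nonneg_right e1 hp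
      _ = ∑ n ∈ G \ W, ((1 - τ) * L) ^ k := by rw [sum_const, nsmul_eq_mul]
      _ ≤ ∑ n ∈ G \ W, P n := by
          apply sum_le_sum
          intro n hn
          rw [mem_sdiff] at hn
          exact hPlow n hn.1 hn.2
      _ ≤ ∑ n ∈ A, P n := by
          apply sum_le_sum_of_subset_of_nonneg
          · intro n hn
            exact (mem_filter.1 (mem_sdiff.1 hn).1).1
          · intro n _ _
            exact hP0 n
  -- final arithmetic
  set D : ℝ := A.card / (Vz z * L) ^ k with hD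
  have hVk : (Vz z)⁻¹ ^ k * A.card = D * L ^ k := by
    rw [hD, mul_pow]
    have : Vz z ^ k ≠ 0 := by positivity
    have h'' : L ^ k ≠ 0 := by positivity
    rw [inv_pow]
    field_simp
  rw [hVk] at hmain2
  obtain ⟨m1, m2⟩ := abs_le.1 hmain2
  set e : ℝ := N / L ^ (C + k + 1) with he
  have he0 : 0 ≤ e := by positivity
  have hDe : e * L ≤ D := by
    have d1 : N / L ^ (C + k) ≤ D := by
      rw [hD, pow_add, ← div_div]
      have d2 : (Vz z * L) ^ k ≤ L ^ k := pow_le_pow_left₀ (by positivity) (by nlinarith) k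
      calc N / L ^ C / L ^ k ≤ A.card / L ^ k := by
            apply div_le_div_of_nonneg_right hAc (by positivity)
        _ ≤ A.card / (Vz z * L) ^ k := by
            apply div_le_div_of_nonneg_left (Nat.cast_nonneg _) (by positivity) d2
    have d2 : e * L = N / L ^ (C + k) := by
      rw [he, pow_succ]; field_simp
    rw [d2]; exact d1
  have hW2 : (W.card : ℝ) ≤ k * e := by
    refine hWc.trans ?_
    apply mul_le_mul_of_nonneg_left _ (Nat.cast_nonneg _)
    rw [he]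
    apply div_le_div_of_nonneg_left hN0.le (by positivity) (pow_le_pow_right₀ hL1 (by omega))
  have hLk : 1 ≤ L ^ k := one_le_pow₀ hL1
  have hLk0 : 0 < L ^ k := by positivity
  have hD0 : 0 ≤ D := le_trans (by positivity) hDe
  have hεL : 16 * (k + 1) * 4 ^ k * e ≤ ε * D := by
    rw [div_le_iff₀ hε] at hLε
    calc 16 * (k + 1) * 4 ^ k * e ≤ (L * ε) * e := mul_le_mul_of_nonneg_right hLε he0
      _ = ε * (e * L) := by ring
      _ ≤ ε * D := mul_le_mul_of_nonneg_left hDe hε.le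
  have h4k : (1 : ℝ) ≤ 4 ^ k := one_le_pow₀ (by norm_num)
  have hke : 16 * (k + 1) * e ≤ ε * D := by
    refine le_trans ?_ hεL
    have : 0 ≤ 16 * ((k : ℝ) + 1) * e := by positivity
    nlinarith
  set T1 : ℝ := (1 + τ) ^ k with hT1
  set T2 : ℝ := (1 - τ) ^ k with hT2
  have hT10 : 0 < T1 := by positivity
  have hT20 : 0 < T2 := by linarith
  have hT11 : 1 ≤ T1 := one_le_pow₀ (by linarith)
  rw [mul_pow] at hS1 hS2
  rw [← hT1] at hS1
  rw [← hT2] at hS2
  have hk0 : (0 : ℝ) ≤ k := Nat.cast_nonneg _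
  change |(G.card : ℝ) - D| ≤ ε * D
  have hLe : e ≤ D / 2 := by
    have : e * 2 ≤ e * L := mul_le_mul_of_nonneg_left hL2 he0
    linarith
  exact arith (G.card : ℝ) W.card D e ε T1 T2 (L ^ k) k (∑ n ∈ A, P n) (Nat.cast_nonneg _) (Nat.cast_nonneg _) hk0 he0 hD0 hε hLk hT11 hT20 ht1 ht2 ht3 ht4
    hW2 hke hLe m1 m2 hS1 hS2

end Pool.Agent.W23.UL
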